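import Pool.Agent.Run7.h719.CG.Main

open Filter Set

namespace Pool.Agent.Results.MP_7eacff_nt.GapRatioAnyPairing

/-- multiplicity of `s` as a zero of the Riemann zeta function (order of vanishing at `s`) -/
noncomputable def zmult (s : ℂ) : ℕ := analyticOrderNatAt riemannZeta s

/-- the number of nontrivial zeros of `ζ` with ordinate in `(0, t]`, with multiplicity -/
noncomputable def NZ (t : ℝ) : ℕ :=
  ∑ᶠ s ∈ {s : ℂ | riemannZeta s = 0 ∧ 0 < s.re ∧ s.re < 1 ∧ 0 < s.im ∧ s.im ≤ t}, zmult s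

/-- for `n ≥ 1`: the `n`-th positive ordinate `γ n` of a nontrivial zero of `ζ`, the ordinates being
listed in nondecreasing order and repeated according to multiplicity -/
noncomputable def γ (n : ℕ) : ℝ := sInf {t : ℝ | n ≤ NZ t}

/-- the unfolded consecutive gaps `δ_n = (γ_{n+1} - γ_n) / 2π · log (γ_n / 2π)` -/
noncomputable def δ (n : ℕ) : ℝ := (γ (n + 1) - γ n) / (2 * Real.pi) * Real.log (γ n / (2 * Real.pi))

/-- On the Riemann hypothesis, for all large `N`: for every permutation `σ` of `{1, …, N}` the mean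
over `n ≤ N` of the ratio of the smaller to the larger of `δ_n` and `δ_{σ(n)}` (in absolute value,
and read as `0` when both vanish) is at least `0.403`. -/
theorem result (RH : RiemannHypothesis) : ∀ᶠ N : ℕ in atTop,
    ∀ σ : ℕ → ℕ, BijOn σ (Icc 1 N) (Icc 1 N) →
      0.403 ≤ (1 / N : ℝ) * ∑ n ∈ Finset.Icc 1 N, min |δ n| |δ (σ n)| / max |δ n| |δ (σ n)| := by
  filter_upwards [Run7.h719.CG.ratio_ge RH, eventually_gt_atTop 0] with N h1 hN σ hσ
  have hNpos : (0 : ℝ) < N := by exact_mod_cast hN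
  change 0.403 ≤ (1 / N : ℝ) * ∑ n ∈ Finset.Icc 1 N,
      min |Y747.dl n| |Y747.dl (σ n)| / max |Y747.dl n| |Y747.dl (σ n)|
  rw [one_div, inv_mul_eq_div]
  exact (le_div_iff₀ hNpos).2 (h1 σ hσ)

end Pool.Agent.Results.MP_7eacff_nt.GapRatioAnyPairing
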