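import Pool.Agent.Run7.h435.GLh
import Pool.Agent.Run7.h435.GLi

/-!
**The joint Gaussian law of the sums of many consecutive gaps of the zeta zeros.**  Unconditional.

(1) Let `k_1, …, k_m` be numbers between `h` and `h ^ A`, any two of which differ by at least `h`.  As
`N → ∞` and then `h → ∞`, uniformly in the `k_i`, the distribution over `n ≤ N` of the vector
`(δ_n + … + δ_{n + k_i - 1} - k_i) / √(log h)`, `i ≤ m`, approaches the centred Gaussian law with the
covariances `(log k_i + log k_j - log |k_i - k_j|) / (2 π² log h)` and variances `log k_i / (π² log h)`.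

(2) The sums over `m` adjacent blocks of `r` gaps, minus `r` and divided by `√(log r)`, become jointly
Gaussian, with variances `1 / π²`, covariance `-1 / (2 π²)` for neighbouring blocks, and independent
otherwise.

(3) The sequence of the gaps is not strongly mixing, at any distance `g`: the events that the sum of the
`r` gaps following `γ_n` exceeds `r`, and that the sum of the `r` gaps after the next `g` gaps exceeds `r`,
have frequencies close to `1/2`, but hold simultaneously with frequency close to `1/6`.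
-/

set_option autoImplicit false

open Filter MeasureTheory ProbabilityTheory

namespace Pool.Agent.Results.MP_7eacff_nt.JointGaussianLaw

/-- multiplicity of `s` as a zero of the Riemann zeta function (order of vanishing at `s`) -/
noncomputable def zmult (s : ℂ) : ℕ := analyticOrderNatAt riemannZeta s

/-- the number of nontrivial zeros of `ζ` with ordinate in `(0, t]`, with multiplicity -/
noncomputable def NZ (t : ℝ) : ℕ :=
  ∑ᶠ s ∈ {s : ℂ | riemannZeta s = 0 ∧ 0 < s.re ∧ s.re < 1 ∧ 0 < s.im ∧ s.im ≤ t}, zmult s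

/-- for `n ≥ 1`: the `n`-th positive ordinate `γ n` of a nontrivial zero of `ζ`, the ordinates being
listed in nondecreasing order and repeated according to multiplicity -/
noncomputable def γ (n : ℕ) : ℝ := sInf {t : ℝ | n ≤ NZ t}

/-- the unfolded consecutive gaps `δ_n = (γ_{n+1} - γ_n) / 2π · log (γ_n / 2π)` -/
noncomputable def δ (n : ℕ) : ℝ := (γ (n + 1) - γ n) / (2 * Real.pi) * Real.log (γ n / (2 * Real.pi))

/-- the frequency of the `n` with `1 ≤ n ≤ N` and `P n` -/
noncomputable def freq (N : ℕ) (P : ℕ → Prop) : ℝ :=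
  (1 / N : ℝ) * ({n : ℕ | 1 ≤ n ∧ n ≤ N ∧ P n}.ncard : ℝ)

/-- all the `k i` lie between `h` and `h ^ A`, and any two of them differ by at least `h` -/
def Spaced {m : ℕ} (A h : ℕ) (k : Fin m → ℕ) : Prop :=
  (∀ i, h ≤ k i ∧ k i ≤ h ^ A) ∧ ∀ i j, i ≠ j → (h : ℝ) ≤ |(k i : ℝ) - k j|

/-- the vector with the coordinates `(δ_n + … + δ_{n + k_i - 1} - k_i) / √(log h)` -/
noncomputable def sums {m : ℕ} (h : ℕ) (k : Fin m → ℕ) (n : ℕ) : EuclideanSpace ℝ (Fin m) :=
  WithLp.toLp 2 fun i => (∑ l ∈ Finset.range (k i), δ (n + l) - k i) / Real.sqrt (Real.log h)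

/-- the covariance matrix of the limit law -/
noncomputable def Sig {m : ℕ} (h : ℕ) (k : Fin m → ℕ) : Matrix (Fin m) (Fin m) ℝ :=
  Matrix.of fun i j => if i = j then Real.log (k i) / (Real.pi ^ 2 * Real.log h) else
    (Real.log (k i) + Real.log (k j) - Real.log |(k i : ℝ) - k j|) / (2 * Real.pi ^ 2 * Real.log h)

/-- the vector of the normalised sums over the `m` adjacent blocks of `r` gaps following `γ_n` -/
noncomputable def blocks (m r n : ℕ) : EuclideanSpace ℝ (Fin m) :=
  WithLp.toLp 2 fun i => (∑ l ∈ Finset.range r, δ (n + i * r + l) - r) / Real.sqrt (Real.log r)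

/-- the covariance matrix of the blocks: `1 / π²` on the diagonal, `-1 / (2 π²)` next to it -/
noncomputable def Tri (m : ℕ) : Matrix (Fin m) (Fin m) ℝ :=
  Matrix.of fun i j => if i = j then 1 / Real.pi ^ 2 else
    if (i : ℕ) + 1 = j ∨ (j : ℕ) + 1 = i then -(1 / (2 * Real.pi ^ 2)) else 0

/-- Unconditionally, with `γ n` the ordinates of all the nontrivial zeros in the upper half-plane and
`δ n` their unfolded gaps.

(1) For every set `S` in `ℝ ^ m` whose boundary has measure zero, and all `A` and `ε > 0`, the following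
holds for all large `h` and all spaced `k`: the matrix `Sig h k` is positive definite, and for all large
`N` the frequency of the `n ≤ N` with `sums h k n ∈ S` differs by at most `ε` from the measure of `S` for
the centred Gaussian law with this covariance matrix.

(2) For such `S` and all `ε > 0` and large `r`, for all large `N` the frequency of the `n ≤ N` with
`blocks m r n ∈ S` differs by at most `ε` from the measure of `S` for the centred Gaussian law with
covariance matrix `Tri m`.

(3) For all `g`, all `ε > 0` and all large `r`, for all large `N` the frequencies of the events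
`δ_n + … + δ_{n+r-1} > r` and `δ_{n+r+g} + … + δ_{n+2r+g-1} > r` differ by at most `ε` from `1/2`, but the
frequency of their intersection differs by at most `ε` from `1/6`. -/
theorem result :
    (∀ (m A : ℕ) (S : Set (EuclideanSpace ℝ (Fin m))), volume (frontier S) = 0 → ∀ ε : ℝ, 0 < ε →
      ∀ᶠ h : ℕ in atTop, ∀ k : Fin m → ℕ, Spaced A h k → (Sig h k).PosDef ∧ ∀ᶠ N : ℕ in atTop,
        |freq N (fun n => sums h k n ∈ S) - (multivariateGaussian 0 (Sig h k)).real S| ≤ ε) ∧
    (∀ (m : ℕ) (S : Set (EuclideanSpace ℝ (Fin m))), volume (frontier S) = 0 → ∀ ε : ℝ, 0 < ε →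
      ∀ᶠ r : ℕ in atTop, ∀ᶠ N : ℕ in atTop,
        |freq N (fun n => blocks m r n ∈ S) - (multivariateGaussian 0 (Tri m)).real S| ≤ ε) ∧
    (∀ (g : ℕ) (ε : ℝ), 0 < ε → ∀ᶠ r : ℕ in atTop, ∀ᶠ N : ℕ in atTop,
      |freq N (fun n => (r : ℝ) < ∑ l ∈ Finset.range r, δ (n + l) ∧
        (r : ℝ) < ∑ l ∈ Finset.range r, δ (n + (r + g) + l)) - 1 / 6| ≤ ε ∧
      |freq N (fun n => (r : ℝ) < ∑ l ∈ Finset.range r, δ (n + l)) - 1 / 2| ≤ ε ∧
      |freq N (fun n => (r : ℝ) < ∑ l ∈ Finset.range r, δ (n + (r + g) + l)) - 1 / 2| ≤ ε) :=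
  ⟨fun m A S hS ε hε => Run7.h435.GL.law m A S hS ε hε,
    fun m S hS ε hε => Run7.h435.GL.blocks m S hS ε hε, fun g ε hε => Run7.h435.GL.nonmix g ε hε⟩

end Pool.Agent.Results.MP_7eacff_nt.JointGaussianLaw
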