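import Pool.Agent.Run7.h435.NFj

/-!
**The `1/f` noise of the zeros of zeta, and the covariances of their gaps.**  On the Riemann hypothesis.

Unfold the ordinates and follow, over `m` consecutive zeros starting at `γ_n`, the displacement of the
levels from their expected positions, `X_j = (δ_n - 1) + … + (δ_{n+j-1} - 1)`, `0 ≤ j < m`.  The power
spectrum of this sequence is `P(k) = |∑_j X_j exp (-2 π i j k / m)|² / m`.

(1) For almost all `n`, in the sense of convergence in the mean, the energy in every frequency band is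
`∑_{m ^ α ≤ k < m ^ β, k ≤ m / 2} P(k) ~ (β - α) / (4 π²) · m log m`: the same energy in each octave, which
is the law `P(k) ~ m / (4 π² k)` of the GUE (`1/f` noise of quantum chaos) in integrated form; independent
gaps have `1/f²` noise.

(2) For the covariances `C_k` of `δ_n` and `δ_{n+k}`: `C_0 + 2 ∑_{1≤k<m} (1 - k/m) C_k ~ log m / (π² m)`,
and `∑_{1≤k<m} (1 - k/m) k C_k ~ - log m / (2 π²)`, that is the law `C_k ~ -1 / (2 π² k²)` of Dyson and
Mehta for the GUE in the logarithmic mean.
-/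

set_option autoImplicit false

open Filter Finset

namespace Pool.Agent.Results.MP_7eacff_nt.OneOverFNoise

/-- multiplicity of `s` as a zero of the Riemann zeta function (order of vanishing at `s`) -/
noncomputable def zmult (s : ℂ) : ℕ := analyticOrderNatAt riemannZeta s

/-- the number of nontrivial zeros of `ζ` with ordinate in `(0, t]`, with multiplicity -/
noncomputable def NZ (t : ℝ) : ℕ :=
  ∑ᶠ s ∈ {s : ℂ | riemannZeta s = 0 ∧ 0 < s.re ∧ s.re < 1 ∧ 0 < s.im ∧ s.im ≤ t}, zmult s

/-- for `n ≥ 1`: the `n`-th positive ordinate `γ n` of a nontrivial zero of `ζ`, the ordinates being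
listed in nondecreasing order and repeated according to multiplicity -/
noncomputable def γ (n : ℕ) : ℝ := sInf {t : ℝ | n ≤ NZ t}

/-- the unfolded consecutive gaps `δ_n = (γ_{n+1} - γ_n) / 2π · log (γ_n / 2π)` -/
noncomputable def δ (n : ℕ) : ℝ := (γ (n + 1) - γ n) / (2 * Real.pi) * Real.log (γ n / (2 * Real.pi))

/-- the displacement of the `j`-th level after `γ_n` -/
noncomputable def disp (n j : ℕ) : ℝ := ∑ i ∈ range j, (δ (n + i) - 1)

/-- the power at the frequency `k / m` in the window of `m` levels starting at `γ_n` -/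
noncomputable def power (m n k : ℕ) : ℝ :=
  ‖∑ j ∈ range m, (disp n j : ℂ) * Complex.exp (-(2 * Real.pi * Complex.I * j * k / m))‖ ^ 2 / m

/-- the energy in the frequency band `[m ^ α, m ^ β)` -/
noncomputable def energy (α β : ℝ) (m n : ℕ) : ℝ :=
  ∑ k ∈ (range m).filter (fun k : ℕ => (m : ℝ) ^ α ≤ k ∧ (k : ℝ) < (m : ℝ) ^ β ∧ 2 * k ≤ m), power m n k

/-- the covariance of the gaps at distance `k` over `n ≤ N` -/
noncomputable def C (k N : ℕ) : ℝ := (1 / N : ℝ) * ∑ n ∈ Icc 1 N, (δ n - 1) * (δ (n + k) - 1)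

/-- On the Riemann hypothesis, (1) the power spectrum of almost all windows of `m` consecutive zeros is
`1/f` noise: the mean over `n ≤ N` of `|energy α β m n / (m log m) - (β - α) / (4 π²)|` is at most `ε`,
for all large `m` and then all large `N`; (2) the sum rule for the covariances and (3) the law of Dyson
and Mehta for them in the mean. -/
theorem result (RH : RiemannHypothesis) :
    (∀ α β : ℝ, 0 ≤ α → α ≤ β → β ≤ 1 → ∀ ε : ℝ, 0 < ε → ∀ᶠ m : ℕ in atTop, ∀ᶠ N : ℕ in atTop,
      (1 / N : ℝ) * ∑ n ∈ Icc 1 N,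
        |energy α β m n / (m * Real.log m) - (β - α) / (4 * Real.pi ^ 2)| ≤ ε) ∧
    (∀ ε : ℝ, 0 < ε → ∀ᶠ m : ℕ in atTop, ∀ᶠ N : ℕ in atTop,
      |m / Real.log m * (C 0 N + 2 * ∑ k ∈ Ico 1 m, (1 - (k : ℝ) / m) * C k N) - 1 / Real.pi ^ 2| ≤ ε ∧
      |1 / Real.log m * ∑ k ∈ Ico 1 m, (1 - (k : ℝ) / m) * k * C k N + 1 / (2 * Real.pi ^ 2)| ≤ ε) :=
  ⟨fun α β hα hαβ hβ ε hε => Run7.h435.NF.noise (Run7.h435.NF.rhs_of RH) α β hα hαβ hβ ε hε,
    fun ε hε => Run7.h435.NF.cov_laws (Run7.h435.NF.rhs_of RH) ε hε⟩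

end Pool.Agent.Results.MP_7eacff_nt.OneOverFNoise
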