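import Pool.Agent.Run7.h719.SM.Main
import Pool.Agent.Results.MP_103a5c_nt.BeyondOne

open Filter Set

namespace Pool.Agent.Results.MP_7eacff_nt.SecondMoment

/-- multiplicity of `s` as a zero of the Riemann zeta function (order of vanishing at `s`) -/
noncomputable def zmult (s : ℂ) : ℕ := analyticOrderNatAt riemannZeta s

/-- the number of nontrivial zeros of `ζ` with ordinate in `(0, t]`, with multiplicity -/
noncomputable def NZ (t : ℝ) : ℕ :=
  ∑ᶠ s ∈ {s : ℂ | riemannZeta s = 0 ∧ 0 < s.re ∧ s.re < 1 ∧ 0 < s.im ∧ s.im ≤ t}, zmult s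

/-- for `n ≥ 1`: the `n`-th positive ordinate `γ n` of a nontrivial zero of `ζ`, the ordinates being
listed in nondecreasing order and repeated according to multiplicity -/
noncomputable def γ (n : ℕ) : ℝ := sInf {t : ℝ | n ≤ NZ t}

/-- the unfolded consecutive gaps `δ_n = (γ_{n+1} - γ_n) / 2π · log (γ_n / 2π)` -/
noncomputable def δ (n : ℕ) : ℝ := (γ (n + 1) - γ n) / (2 * Real.pi) * Real.log (γ n / (2 * Real.pi))

lemma F_eq {T : ℝ} (hT : 10 ≤ T) (α : ℝ) :
    MP_103a5c_nt.BeyondOne.F α T = (Pool.Agent.Y749.Rig.Fr T α : ℂ) := by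
  rw [← Pool.Agent.Y749.Rig.P.F_eq hT α]
  unfold MP_103a5c_nt.BeyondOne.F Pool.Agent.Y749.Rig.P.F Pool.Agent.Y744.G.X
  push_cast
  rfl

lemma beyond (hRH : RiemannHypothesis) (ε : ℝ) (hε : 0 < ε) : ∀ᶠ T in Filter.atTop,
    ∀ α ∈ Set.Icc (1 : ℝ) (3 / 2), 3 / 2 - α - ε ≤ Pool.Agent.Y749.Rig.Fr T α := by
  obtain ⟨T0, h⟩ := MP_103a5c_nt.BeyondOne.result.1 ε hε
  filter_upwards [Filter.eventually_ge_atTop T0, Filter.eventually_ge_atTop 10] with T h1 h2
  intro α hα
  have h3 := (h T h1 α hα.1 hα.2).2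
  rwa [MP_103a5c_nt.BeyondOne.result.2 hRH α T, F_eq h2, Complex.ofReal_re] at h3

/-- **The second moment of the gaps, on the Riemann hypothesis.**  For all large `N` the mean of the
squares of the first `N` unfolded gaps (whose mean is `1`) is at most `1.615`. -/
theorem result (RH : RiemannHypothesis) : ∀ᶠ N : ℕ in atTop,
    (1 / N : ℝ) * ∑ n ∈ Finset.Icc 1 N, δ n ^ 2 ≤ 1.615 := by
  filter_upwards [Run7.h719.SM.main RH (beyond RH), eventually_gt_atTop 0] with N h1 hN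
  have hNpos : (0 : ℝ) < N := by exact_mod_cast hN
  change (1 / N : ℝ) * ∑ n ∈ Finset.Icc 1 N, Y747.dl n ^ 2 ≤ 1.615
  rw [one_div, inv_mul_eq_div]
  exact (div_le_iff₀ hNpos).2 h1

end Pool.Agent.Results.MP_7eacff_nt.SecondMoment
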